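import Mathlib.Analysis.InnerProductSpace.l2Space
import Mathlib.Analysis.InnerProductSpace.Adjoint
import Mathlib.Analysis.Subadditive
import Mathlib.GroupTheory.FreeGroup.Reduce
import Mathlib.Algebra.Group.Pointwise.Finset.Basic
import Mathlib.Algebra.Group.Action.Pointwise.Finset
import Mathlib.Algebra.Group.Submonoid.Basic
import Mathlib.Analysis.SpecialFunctions.Pow.Real

/-!
# MP_122225_al : spectral radius of the left random walk and left amenability

The monoid is the semidirect product of the semilattice of finite subsets of the free group `F₂`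
(under union) by `F₂`.  The generating family contains twelve copies of `({1}, a)`, whose `n`-th
power is `2 ^ n`-to-one on a fibre.
-/

namespace Pool.Agent.Results.MP_122225_al.NotAmenable

open Filter Topology
open scoped Pointwise lp ENNReal

/-- `S` is left amenable: there is a finitely additive probability measure `μ` on all subsets with
`μ (a⁻¹ A) = μ A`, where `a⁻¹ A = {s | a * s ∈ A}`. -/
def LeftAmenable (S : Type) [Monoid S] : Prop :=
  ∃ μ : Set S → ℝ, (∀ A, 0 ≤ μ A) ∧ μ Set.univ = 1 ∧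
    (∀ A B, Disjoint A B → μ (A ∪ B) = μ A + μ B) ∧
    ∀ (a : S) (A : Set S), μ {s | a * s ∈ A} = μ A

/-- `S` is left reversible: `aS ∩ bS ≠ ∅` for all `a b`. -/
def LeftReversible (S : Type) [Monoid S] : Prop :=
  ∀ a b : S, ∃ x y : S, a * x = b * y

/-- The Klawe condition. -/
def Klawe (S : Type) [Monoid S] : Prop :=
  ∀ s x y : S, s * x = s * y → ∃ t : S, x * t = y * t

/-- The transition matrix `M_{st} = #{i | x_i s = t} / k` of the left random walk. -/
noncomputable def mat {S : Type} [Monoid S] {ι : Type} [Fintype ι] (X : ι → S) (s t : S) : ℝ :=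
  (Nat.card {i : ι // X i * s = t} : ℝ) / Fintype.card ι

/-- The bounded operator `T` on `ℓ²(S)` is the left random walk Markov operator of the family `X`:
for all `v` and `t`, `(T v)(t) = ∑ₛ v(s) M_{st}` (and the sum converges). -/
def IsMarkovOperator {S : Type} [Monoid S] {ι : Type} [Fintype ι] (X : ι → S)
    (T : ℓ²(S, ℝ) →L[ℝ] ℓ²(S, ℝ)) : Prop :=
  ∀ (v : ℓ²(S, ℝ)) (t : S), HasSum (fun s => v s * mat X s t) (T v t)

/-- `r` is the limit `lim ‖T^n‖^{1/n}`. -/
def HasRadius {S : Type} (T : ℓ²(S, ℝ) →L[ℝ] ℓ²(S, ℝ)) (r : ℝ) : Prop :=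
  Tendsto (fun n : ℕ => ‖T ^ n‖ ^ (1 / (n : ℝ))) atTop (𝓝 r)

/-! ### Elementary formulation -/

/-- `v ∈ ℓ²(S)`. -/
def SqSummable {S : Type} (v : S → ℝ) : Prop := Summable fun s => v s ^ 2

/-- The norm of `ℓ²(S)`. -/
noncomputable def l2norm {S : Type} (v : S → ℝ) : ℝ := Real.sqrt (∑' s, v s ^ 2)

/-- The left random walk Markov operator: `(v M)(t) = ∑ₛ v(s) M_{st}`. -/
noncomputable def markov {S : Type} [Monoid S] {ι : Type} [Fintype ι] (X : ι → S)
    (v : S → ℝ) (t : S) : ℝ := ∑' s, v s * mat X s t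

/-- The Markov operator is defined: it maps `ℓ²(S)` into itself. -/
def Defined {S : Type} [Monoid S] {ι : Type} [Fintype ι] (X : ι → S) : Prop :=
  ∀ v : S → ℝ, SqSummable v →
    (∀ t, Summable fun s => v s * mat X s t) ∧ SqSummable (markov X v)

/-- The map `Φ` is bounded on `ℓ²(S)`. -/
def IsBdd {S : Type} (Φ : (S → ℝ) → (S → ℝ)) : Prop :=
  ∃ c : ℝ, ∀ v : S → ℝ, SqSummable v → l2norm (Φ v) ≤ c * l2norm v

/-- The operator norm of a map `Φ` on `ℓ²(S)`: the supremum of the norms of the `Φ v` for `v` in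
the closed unit ball. -/
noncomputable def opNorm {S : Type} (Φ : (S → ℝ) → (S → ℝ)) : ℝ :=
  sSup {x | ∃ v : S → ℝ, SqSummable v ∧ l2norm v ≤ 1 ∧ x = l2norm (Φ v)}

/-- `r` is the spectral radius `lim ‖M^n‖^{1/n}` of the Markov operator of the family `X`. -/
def HasSpectralRadius {S : Type} [Monoid S] {ι : Type} [Fintype ι] (X : ι → S) (r : ℝ) : Prop :=
  Tendsto (fun n : ℕ => opNorm ((markov X)^[n]) ^ (1 / (n : ℝ))) atTop (𝓝 r)

theorem sqSummable_coe {S : Type} (v : ℓ²(S, ℝ)) : SqSummable (v : S → ℝ) := by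
  have h := (memℓp_gen_iff (p := 2) (by simp)).1 (lp.memℓp v)
  have h2 : (2 : ℝ≥0∞).toReal = ((2 : ℕ) : ℝ) := by simp
  rw [h2] at h
  unfold SqSummable
  refine h.congr fun s => ?_
  rw [Real.rpow_natCast, Real.norm_eq_abs, sq_abs]

theorem memlp_of {S : Type} {v : S → ℝ} (h : SqSummable v) : Memℓp v 2 := by
  refine (memℓp_gen_iff (p := 2) (by simp)).2 ?_
  have h2 : (2 : ℝ≥0∞).toReal = ((2 : ℕ) : ℝ) := by simp
  rw [h2]
  refine Summable.congr h fun s => ?_
  rw [Real.rpow_natCast, Real.norm_eq_abs, sq_abs]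

theorem l2norm_coe {S : Type} (v : ℓ²(S, ℝ)) : l2norm (v : S → ℝ) = ‖v‖ := by
  have h := lp.norm_rpow_eq_tsum (p := 2) (by simp) v
  have h2 : (2 : ℝ≥0∞).toReal = ((2 : ℕ) : ℝ) := by simp
  rw [h2, Real.rpow_natCast] at h
  unfold l2norm
  rw [Real.sqrt_eq_iff_mul_self_eq (tsum_nonneg fun s => sq_nonneg _) (norm_nonneg _), ← sq, h]
  refine tsum_congr fun s => ?_
  rw [Real.rpow_natCast, Real.norm_eq_abs, sq_abs]

section transfer

variable {S : Type} [Monoid S] {ι : Type} [Fintype ι] (X : ι → S)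
  (T : ℓ²(S, ℝ) →L[ℝ] ℓ²(S, ℝ)) (hT : IsMarkovOperator X T)

include hT

theorem markov_coe (v : ℓ²(S, ℝ)) : markov X v = T v := by
  funext t
  exact (hT v t).tsum_eq

theorem markov_iter (n : ℕ) (v : ℓ²(S, ℝ)) : (markov X)^[n] v = (T ^ n) v := by
  induction n with
  | zero => rfl
  | succ n ih =>
    rw [Function.iterate_succ_apply', ih, markov_coe X T hT, pow_succ', mul_apply_eq_comp]

theorem defined_of : Defined X := by
  intro v hv
  have h1 := hT ⟨v, memlp_of hv⟩
  refine ⟨fun t => (h1 t).summable, ?_⟩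
  have h2 := markov_coe X T hT ⟨v, memlp_of hv⟩
  have h3 : markov X v = T ⟨v, memlp_of hv⟩ := h2
  rw [h3]
  exact sqSummable_coe _

theorem isBdd_of : IsBdd (markov X) := by
  refine ⟨‖T‖, fun v hv => ?_⟩
  have h3 : markov X v = T ⟨v, memlp_of hv⟩ := markov_coe X T hT ⟨v, memlp_of hv⟩
  rw [h3, l2norm_coe]
  have h4 : l2norm v = ‖(⟨v, memlp_of hv⟩ : ℓ²(S, ℝ))‖ := l2norm_coe ⟨v, memlp_of hv⟩
  rw [h4]
  exact T.le_opNorm _

theorem opNorm_iter (n : ℕ) : opNorm ((markov X)^[n]) = ‖T ^ n‖ := by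
  rw [← ContinuousLinearMap.sSup_unitClosedBall_eq_norm, opNorm]
  congr 1
  ext x
  constructor
  · rintro ⟨v, hv, hv1, rfl⟩
    have h4 : l2norm v = ‖(⟨v, memlp_of hv⟩ : ℓ²(S, ℝ))‖ := l2norm_coe ⟨v, memlp_of hv⟩
    refine ⟨⟨v, memlp_of hv⟩, ?_, ?_⟩
    · rw [mem_closedBall_zero_iff, ← h4]
      exact hv1
    · have h5 : (markov X)^[n] v = (T ^ n) ⟨v, memlp_of hv⟩ :=
        markov_iter X T hT n ⟨v, memlp_of hv⟩
      rw [h5, l2norm_coe]
  · rintro ⟨v, hv, rfl⟩
    refine ⟨v, sqSummable_coe v, ?_, ?_⟩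
    · rw [l2norm_coe]
      exact mem_closedBall_zero_iff.1 hv
    · rw [markov_iter X T hT, l2norm_coe]

end transfer

/-! ### Composition operators on `ℓ²` -/

section comp

variable {S : Type}

theorem comp_sum_le (f : S → S) (c : ℕ)
    (hf : ∀ t, ∀ F : Finset S, (∀ s ∈ F, f s = t) → F.card ≤ c) (w : ℓ²(S, ℝ)) (F : Finset S) :
    ∑ s ∈ F, ‖w (f s)‖ ^ (2 : ℝ≥0∞).toReal ≤ (Real.sqrt c * ‖w‖) ^ (2 : ℝ≥0∞).toReal := by
  classical
  have h2 : (2 : ℝ≥0∞).toReal = ((2 : ℕ) : ℝ) := by simp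
  have h0 : 0 < (2 : ℝ≥0∞).toReal := by simp
  calc ∑ s ∈ F, ‖w (f s)‖ ^ (2 : ℝ≥0∞).toReal
      = ∑ t ∈ F.image f, (F.filter (fun a => f a = t)).card • ‖w t‖ ^ (2 : ℝ≥0∞).toReal :=
        Finset.sum_comp (fun t => ‖w t‖ ^ (2 : ℝ≥0∞).toReal) f
    _ ≤ ∑ t ∈ F.image f, (c : ℝ) * ‖w t‖ ^ (2 : ℝ≥0∞).toReal := by
        refine Finset.sum_le_sum fun t _ => ?_
        rw [nsmul_eq_mul]
        refine mul_le_mul_of_nonneg_right ?_ (by positivity)
        exact_mod_cast hf t _ (fun s hs => (Finset.mem_filter.1 hs).2)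
    _ = (c : ℝ) * ∑ t ∈ F.image f, ‖w t‖ ^ (2 : ℝ≥0∞).toReal := by rw [Finset.mul_sum]
    _ ≤ (c : ℝ) * ‖w‖ ^ (2 : ℝ≥0∞).toReal :=
        mul_le_mul_of_nonneg_left (lp.sum_rpow_le_norm_rpow h0 w _) (by positivity)
    _ = (Real.sqrt c * ‖w‖) ^ (2 : ℝ≥0∞).toReal := by
        rw [h2, Real.rpow_natCast, Real.rpow_natCast, mul_pow, Real.sq_sqrt (by positivity)]

/-- The composition operator `w ↦ w ∘ f` on `ℓ²`. -/
noncomputable def compL (f : S → S) (c : ℕ)
    (hf : ∀ t, ∀ F : Finset S, (∀ s ∈ F, f s = t) → F.card ≤ c) : ℓ²(S, ℝ) →L[ℝ] ℓ²(S, ℝ) :=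
  LinearMap.mkContinuous
    { toFun := fun w => ⟨fun s => w (f s), memℓp_gen' (comp_sum_le f c hf w)⟩
      map_add' := fun v w => by ext s; rfl
      map_smul' := fun r v => by ext s; rfl }
    (Real.sqrt c) (fun w => lp.norm_le_of_forall_sum_le (by simp) (by positivity)
      (comp_sum_le f c hf w))

theorem compL_apply (f : S → S) (c : ℕ)
    (hf : ∀ t, ∀ F : Finset S, (∀ s ∈ F, f s = t) → F.card ≤ c) (w : ℓ²(S, ℝ)) (s : S) :
    compL f c hf w s = w (f s) := rfl

end comp

/-! ### The Markov operator of a family whose left translations have bounded fibres -/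

section markov

variable {S : Type} [Monoid S] {ι : Type} [Fintype ι] (X : ι → S) (c : ℕ)

/-- the averaging operator `(A w)(s) = (1/k) ∑ᵢ w (xᵢ s)` -/
noncomputable def avg
    (hf : ∀ i, ∀ t, ∀ F : Finset S, (∀ s ∈ F, X i * s = t) → F.card ≤ c) :
    ℓ²(S, ℝ) →L[ℝ] ℓ²(S, ℝ) :=
  ((Fintype.card ι : ℝ)⁻¹) • ∑ i, compL (fun s => X i * s) c (hf i)

theorem avg_apply
    (hf : ∀ i, ∀ t, ∀ F : Finset S, (∀ s ∈ F, X i * s = t) → F.card ≤ c)
    (w : ℓ²(S, ℝ)) (s : S) :
    avg X c hf w s = (Fintype.card ι : ℝ)⁻¹ * ∑ i, w (X i * s) := by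
  unfold avg
  rw [smul_apply, lp.coeFn_smul, Pi.smul_apply, smul_eq_mul,
    sum_apply, lp.coeFn_sum, Finset.sum_apply]
  rfl

theorem markov_exists
    (hf : ∀ i, ∀ t, ∀ F : Finset S, (∀ s ∈ F, X i * s = t) → F.card ≤ c) :
    IsMarkovOperator X (ContinuousLinearMap.adjoint (avg X c hf)) := by
  classical
  intro v t
  have h1 : ContinuousLinearMap.adjoint (avg X c hf) v t =
      inner ℝ (avg X c hf (lp.single 2 t (1 : ℝ))) v := by
    rw [← ContinuousLinearMap.adjoint_inner_right, lp.inner_single_left]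
    simp
  rw [h1]
  have h2 := lp.hasSum_inner (𝕜 := ℝ) (avg X c hf (lp.single 2 t (1 : ℝ))) v
  have h4 : ∀ s, inner ℝ ((avg X c hf (lp.single 2 t (1 : ℝ))) s) (v s) = v s * mat X s t := by
    intro s
    rw [avg_apply]
    have h3 : (∑ i, (lp.single 2 t (1 : ℝ) : ℓ²(S, ℝ)) (X i * s)) =
        (Nat.card {i : ι // X i * s = t} : ℝ) := by
      simp only [lp.single_apply, Pi.single_apply]
      rw [Finset.sum_boole, Nat.card_eq_fintype_card, Fintype.card_subtype]
    rw [h3, mat, div_eq_inv_mul]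
    simp
  simp only [h4] at h2
  exact h2

/-- Lower bound for the powers of the averaging operator: if at least `m` of the `k` generators
are equal to `x`, then `A^n w ≥ (m/k)^n w(x^n ·)` for `w ≥ 0`. -/
theorem avg_pow_lower
    (hf : ∀ i, ∀ t, ∀ F : Finset S, (∀ s ∈ F, X i * s = t) → F.card ≤ c)
    (x : S) (J : Finset ι) (hJ : ∀ i ∈ J, X i = x) (w : ℓ²(S, ℝ)) (hw : ∀ s, 0 ≤ w s) (n : ℕ) :
    ∀ s, ((J.card : ℝ) / Fintype.card ι) ^ n * w (x ^ n * s) ≤ ((avg X c hf) ^ n) w s := by
  -- nonnegativity of the iterates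
  have hnn : ∀ n s, 0 ≤ ((avg X c hf) ^ n) w s := by
    intro n
    induction n with
    | zero => intro s; simpa using hw s
    | succ n ih =>
      intro s
      rw [pow_succ', mul_apply_eq_comp, avg_apply]
      exact mul_nonneg (by positivity) (Finset.sum_nonneg fun i _ => ih _)
  induction n with
  | zero => intro s; simp
  | succ n ih =>
    intro s
    rw [pow_succ' (avg X c hf), mul_apply_eq_comp, avg_apply]
    have h1 : ∑ i ∈ J, ((avg X c hf) ^ n) w (X i * s) ≤ ∑ i, ((avg X c hf) ^ n) w (X i * s) :=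
      Finset.sum_le_sum_of_subset_of_nonneg (Finset.subset_univ _) (fun i _ _ => hnn n _)
    have h2 : ∑ i ∈ J, ((avg X c hf) ^ n) w (X i * s) =
        (J.card : ℝ) * ((avg X c hf) ^ n) w (x * s) := by
      rw [Finset.sum_congr rfl (fun i hi => by rw [hJ i hi]), Finset.sum_const, nsmul_eq_mul]
    calc ((J.card : ℝ) / Fintype.card ι) ^ (n + 1) * w (x ^ (n + 1) * s)
        = ((J.card : ℝ) / Fintype.card ι) *
          (((J.card : ℝ) / Fintype.card ι) ^ n * w (x ^ n * (x * s))) := by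
          rw [pow_succ x n, mul_assoc (x ^ n)]; ring
      _ ≤ ((J.card : ℝ) / Fintype.card ι) * ((avg X c hf) ^ n) w (x * s) :=
          mul_le_mul_of_nonneg_left (ih (x * s)) (by positivity)
      _ = (Fintype.card ι : ℝ)⁻¹ * ∑ i ∈ J, ((avg X c hf) ^ n) w (X i * s) := by
          rw [h2]; ring
      _ ≤ _ := mul_le_mul_of_nonneg_left h1 (by positivity)

/-- Lower bound for the norm of the powers, from a finite set of `N` elements `s` with
`x ^ n * s = t`. -/
theorem norm_pow_lower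
    (hf : ∀ i, ∀ t, ∀ F : Finset S, (∀ s ∈ F, X i * s = t) → F.card ≤ c)
    (x : S) (J : Finset ι) (hJ : ∀ i ∈ J, X i = x) (n : ℕ) (t : S) (F : Finset S)
    (hF : ∀ s ∈ F, x ^ n * s = t) :
    Real.sqrt F.card * ((J.card : ℝ) / Fintype.card ι) ^ n ≤ ‖(avg X c hf) ^ n‖ := by
  classical
  set w : ℓ²(S, ℝ) := lp.single 2 t (1 : ℝ) with hw
  have hw1 : ‖w‖ = 1 := by rw [hw, lp.norm_single (by norm_num)]; simp
  have hw0 : ∀ s, 0 ≤ w s := by
    intro s
    rw [hw, lp.single_apply, Pi.single_apply]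
    split_ifs <;> simp
  have h1 := avg_pow_lower X c hf x J hJ w hw0 n
  have h2 : ∀ s ∈ F, ((J.card : ℝ) / Fintype.card ι) ^ n ≤ ((avg X c hf) ^ n) w s := by
    intro s hs
    have := h1 s
    rw [hF s hs, hw, lp.single_apply_self, mul_one] at this
    exact this
  have h3 := lp.sum_rpow_le_norm_rpow (p := 2) (by simp) (((avg X c hf) ^ n) w) F
  have h4 : ‖((avg X c hf) ^ n) w‖ ≤ ‖(avg X c hf) ^ n‖ := by
    have := ((avg X c hf) ^ n).le_opNorm w
    rwa [hw1, mul_one] at this
  refine le_trans ?_ h4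
  have h5 : (2 : ℝ≥0∞).toReal = ((2 : ℕ) : ℝ) := by simp
  rw [h5] at h3
  simp only [Real.rpow_natCast] at h3
  refine le_of_sq_le_sq ?_ (norm_nonneg _)
  refine le_trans ?_ h3
  rw [mul_pow, Real.sq_sqrt (by positivity), ← nsmul_eq_mul]
  refine Finset.card_nsmul_le_sum _ _ _ fun s hs => ?_
  refine pow_le_pow_left₀ (by positivity) ?_ 2
  exact (h2 s hs).trans (le_abs_self _)

end markov

/-- The spectral radius of a bounded operator all of whose powers have norm at least `q ^ n`,
`q > 0`, exists and is at least `q`. -/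
theorem spectralRadius_exists {S : Type} (T : ℓ²(S, ℝ) →L[ℝ] ℓ²(S, ℝ)) (q : ℝ) (hq : 0 < q)
    (h : ∀ n, q ^ n ≤ ‖T ^ n‖) : ∃ r, q ≤ r ∧ HasRadius T r := by
  have hpos : ∀ n, 0 < ‖T ^ n‖ := fun n => lt_of_lt_of_le (pow_pos hq n) (h n)
  have hsub : Subadditive (fun n => Real.log ‖T ^ n‖) := by
    intro m n
    show Real.log ‖T ^ (m + n)‖ ≤ Real.log ‖T ^ m‖ + Real.log ‖T ^ n‖
    rw [← Real.log_mul (hpos m).ne' (hpos n).ne', pow_add]
    exact Real.log_le_log (by rw [← pow_add]; exact hpos _) (norm_mul_le _ _)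
  have hlow : ∀ n : ℕ, 0 < n → Real.log q ≤ Real.log ‖T ^ n‖ / n := by
    intro n hn
    rw [le_div_iff₀ (by exact_mod_cast hn), mul_comm, ← Real.log_pow]
    exact Real.log_le_log (pow_pos hq n) (h n)
  have hbdd : BddBelow (Set.range fun n : ℕ => Real.log ‖T ^ n‖ / n) := by
    refine ⟨min (Real.log q) 0, ?_⟩
    rintro _ ⟨n, rfl⟩
    rcases Nat.eq_zero_or_pos n with rfl | hn
    · simp
    · exact (min_le_left _ _).trans (hlow n hn)
  have hlim := hsub.tendsto_lim hbdd
  refine ⟨Real.exp hsub.lim, ?_, ?_⟩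
  · have h1 : Real.log q ≤ hsub.lim := by
      refine ge_of_tendsto hlim ?_
      filter_upwards [eventually_gt_atTop 0] with n hn
      exact hlow n hn
    rw [← Real.exp_log hq]
    exact Real.exp_le_exp.2 h1
  · unfold HasRadius
    have h2 := (Real.continuous_exp.tendsto _).comp hlim
    refine h2.congr' ?_
    filter_upwards [eventually_gt_atTop 0] with n hn
    rw [Function.comp_apply, Real.rpow_def_of_pos (hpos n)]
    congr 1
    ring

/-! ### The free group of rank two is not left amenable -/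

/-- The free group on two generators. -/
abbrev F2 : Type := FreeGroup Bool

/-- The reduced words starting with the letter `p`. -/
def W (p : Bool × Bool) : Set F2 := {g | ∃ l, g.toWord = p :: l}

/-- The element of `F2` given by a letter. -/
def letter (p : Bool × Bool) : F2 := FreeGroup.mk [p]

theorem letter_mul_toWord (p : Bool × Bool) (g : F2) (h : g ∉ W (p.1, !p.2)) :
    (letter p * g).toWord = p :: g.toWord := by
  have h1 : letter p * g = FreeGroup.mk (p :: g.toWord) := by
    conv_lhs => rw [← FreeGroup.mk_toWord (x := g)]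
    rfl
  rw [h1, FreeGroup.toWord_mk, FreeGroup.reduce.cons, FreeGroup.reduce_toWord]
  cases hg : g.toWord with
  | nil => rfl
  | cons q l =>
    have : ¬ (p.1 = q.1 ∧ p.2 = !q.2) := by
      rintro ⟨h2, h3⟩
      apply h
      refine ⟨l, ?_⟩
      rw [hg, h2, h3, Bool.not_not]
    simp only [this, if_false]

theorem cover (x : Bool) (g : F2) : g ∈ W (x, true) ∨ letter (x, false) * g ∈ W (x, false) := by
  by_cases h : g ∈ W (x, true)
  · exact Or.inl h
  · right
    have := letter_mul_toWord (x, false) g h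
    exact ⟨_, this⟩

theorem W_disjoint {p q : Bool × Bool} (h : p ≠ q) : Disjoint (W p) (W q) := by
  rw [Set.disjoint_left]
  rintro g ⟨l, hl⟩ ⟨l', hl'⟩
  rw [hl] at hl'
  exact h (List.cons.inj hl').1

theorem F2_not_amenable : ¬ LeftAmenable F2 := by
  rintro ⟨μ, h0, h1, hadd, hinv⟩
  have hmono : ∀ A B : Set F2, A ⊆ B → μ A ≤ μ B := by
    intro A B hAB
    have := hadd A (B \ A) Set.disjoint_sdiff_right
    rw [Set.union_sdiff_cancel hAB] at this
    linarith [h0 (B \ A)]
  have hsub : ∀ A B : Set F2, μ (A ∪ B) ≤ μ A + μ B := by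
    intro A B
    have h2 := hadd A (B \ A) Set.disjoint_sdiff_right
    rw [Set.union_sdiff_self] at h2
    linarith [hmono (B \ A) B Set.sdiff_subset]
  have key : ∀ x : Bool, 1 ≤ μ (W (x, true)) + μ (W (x, false)) := by
    intro x
    have h2 : W (x, true) ∪ {g | letter (x, false) * g ∈ W (x, false)} = Set.univ := by
      ext g
      simpa using cover x g
    have h3 := hsub (W (x, true)) {g | letter (x, false) * g ∈ W (x, false)}
    rw [h2, h1, hinv] at h3
    exact h3
  have d1 : Disjoint (W (false, true)) (W (false, false)) := W_disjoint (by decide)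
  have d2 : Disjoint (W (true, true)) (W (true, false)) := W_disjoint (by decide)
  have d3 : Disjoint (W (false, true) ∪ W (false, false)) (W (true, true) ∪ W (true, false)) := by
    rw [Set.disjoint_union_left, Set.disjoint_union_right, Set.disjoint_union_right]
    exact ⟨⟨W_disjoint (by decide), W_disjoint (by decide)⟩,
      ⟨W_disjoint (by decide), W_disjoint (by decide)⟩⟩
  have h4 := hadd _ _ d3
  rw [hadd _ _ d1, hadd _ _ d2] at h4
  have h5 := hmono _ Set.univ (Set.subset_univ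
    ((W (false, true) ∪ W (false, false)) ∪ (W (true, true) ∪ W (true, false))))
  rw [h1, h4] at h5
  linarith [key false, key true]

/-! ### The monoid: finite subsets of `F2` under union, extended by `F2` -/

/-- Pairs `(A, g)` with `A` a finite subset of `F2` and `g ∈ F2`. -/
@[ext] structure S : Type where
  A : Finset F2
  g : F2

/-- Multiplication `(A, g)(B, h) = (A ∪ gB, gh)`. -/
instance : Monoid S where
  mul x y := ⟨x.A ∪ x.g • y.A, x.g * y.g⟩
  one := ⟨∅, 1⟩
  mul_assoc x y z := by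
    show (⟨(x.A ∪ x.g • y.A) ∪ (x.g * y.g) • z.A, x.g * y.g * z.g⟩ : S) =
      ⟨x.A ∪ x.g • (y.A ∪ y.g • z.A), x.g * (y.g * z.g)⟩
    rw [Finset.smul_finset_union, smul_smul, Finset.union_assoc, mul_assoc]
  one_mul x := by
    show (⟨∅ ∪ (1 : F2) • x.A, 1 * x.g⟩ : S) = x
    rw [one_smul, Finset.empty_union, one_mul]
  mul_one x := by
    show (⟨x.A ∪ x.g • (∅ : Finset F2), x.g * 1⟩ : S) = x
    rw [Finset.smul_finset_empty, Finset.union_empty, mul_one]

theorem mul_def (x y : S) : x * y = ⟨x.A ∪ x.g • y.A, x.g * y.g⟩ := rfl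

theorem S_reversible : LeftReversible S := by
  intro x y
  refine ⟨⟨x.g⁻¹ • (x.A ∪ y.A), x.g⁻¹⟩, ⟨y.g⁻¹ • (x.A ∪ y.A), y.g⁻¹⟩, ?_⟩
  rw [mul_def, mul_def]
  simp only [smul_inv_smul, mul_inv_cancel]
  rw [S.mk.injEq]
  refine ⟨?_, rfl⟩
  rw [← Finset.union_assoc, Finset.union_self, Finset.union_comm x.A y.A, ← Finset.union_assoc,
    Finset.union_self]

theorem S_klawe : Klawe S := by
  intro s x y h
  rw [mul_def, mul_def, S.mk.injEq] at h
  have hg : x.g = y.g := mul_left_cancel h.2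
  refine ⟨⟨x.g⁻¹ • (x.A ∪ y.A), 1⟩, ?_⟩
  rw [mul_def, mul_def, ← hg]
  simp only [smul_inv_smul]
  rw [S.mk.injEq]
  refine ⟨?_, rfl⟩
  rw [← Finset.union_assoc, Finset.union_self, Finset.union_comm x.A y.A, ← Finset.union_assoc,
    Finset.union_self]

theorem S_not_amenable : ¬ LeftAmenable S := by
  rintro ⟨μ, h0, h1, hadd, hinv⟩
  refine F2_not_amenable ⟨fun B => μ {s | s.g ∈ B}, fun _ => h0 _, h1, ?_, ?_⟩
  · intro A B hAB
    refine hadd {s : S | s.g ∈ A} {s : S | s.g ∈ B} ?_
    rw [Set.disjoint_left] at hAB ⊢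
    intro s hs hs'
    exact hAB hs hs'
  · intro a B
    exact hinv ⟨∅, a⟩ {s | s.g ∈ B}

/-- The index set: four letters, and twelve copies of the same element. -/
abbrev Idx : Type := (Bool × Bool) ⊕ Fin 12

/-- The element `x' = ({1}, a)`. -/
def x' : S := ⟨{1}, letter (false, true)⟩

/-- The generating family: `(∅, a^{±1})`, `(∅, b^{±1})` and twelve copies of `({1}, a)`. -/
def X : Idx → S
  | Sum.inl p => ⟨∅, letter p⟩
  | Sum.inr _ => x'

theorem letter_inv (p : Bool × Bool) : (letter p)⁻¹ = letter (p.1, !p.2) := rfl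

theorem X_generates : Submonoid.closure (Set.range X) = ⊤ := by
  set C := Submonoid.closure (Set.range X) with hC
  have hX : ∀ i, X i ∈ C := fun i => Submonoid.subset_closure ⟨i, rfl⟩
  -- all `(∅, g)`
  have h1 : ∀ g : F2, (⟨∅, g⟩ : S) ∈ C := by
    intro g
    rw [← FreeGroup.mk_toWord (x := g)]
    generalize g.toWord = l
    induction l with
    | nil => exact C.one_mem
    | cons p l ih =>
      have h2 := C.mul_mem (hX (Sum.inl p)) ih
      rw [mul_def] at h2
      have h3 : (⟨(X (Sum.inl p)).A ∪ (X (Sum.inl p)).g • (∅ : Finset F2),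
          (X (Sum.inl p)).g * FreeGroup.mk l⟩ : S) = ⟨∅, FreeGroup.mk (p :: l)⟩ := by
        rw [S.mk.injEq]
        refine ⟨?_, rfl⟩
        rw [Finset.smul_finset_empty, Finset.union_empty]
        rfl
      rwa [h3] at h2
  -- `({g}, 1)`
  have h2 : ∀ g : F2, (⟨{g}, 1⟩ : S) ∈ C := by
    intro g
    have h3 := C.mul_mem (C.mul_mem (h1 g) (hX (Sum.inr 0))) (h1 ((letter (false, true))⁻¹ * g⁻¹))
    have h4 : (⟨∅, g⟩ : S) * X (Sum.inr 0) * ⟨∅, (letter (false, true))⁻¹ * g⁻¹⟩ = ⟨{g}, 1⟩ := by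
      rw [mul_def, mul_def, S.mk.injEq]
      constructor
      · show ((∅ : Finset F2) ∪ g • ({1} : Finset F2)) ∪ _ • (∅ : Finset F2) = {g}
        rw [Finset.smul_finset_empty, Finset.union_empty, Finset.empty_union,
          Finset.smul_finset_singleton, smul_eq_mul, mul_one]
      · show g * letter (false, true) * ((letter (false, true))⁻¹ * g⁻¹) = 1
        group
    rwa [h4] at h3
  have h3 : ∀ A : Finset F2, (⟨A, 1⟩ : S) ∈ C := by
    intro A
    induction A using Finset.induction_on with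
    | empty => exact C.one_mem
    | insert a A _ ih =>
      have h4 := C.mul_mem (h2 a) ih
      have h5 : (⟨{a}, 1⟩ : S) * ⟨A, 1⟩ = ⟨insert a A, 1⟩ := by
        rw [mul_def]
        simp only [one_smul, mul_one]
        rfl
      rwa [h5] at h4
  rw [eq_top_iff]
  rintro ⟨A, g⟩ _
  have h4 := C.mul_mem (h3 A) (h1 g)
  have h5 : (⟨A, 1⟩ : S) * ⟨∅, g⟩ = ⟨A, g⟩ := by
    rw [mul_def]
    simp only [one_smul, one_mul, Finset.union_empty]
  rwa [h5] at h4

/-- Left multiplication by a generator is at most two-to-one. -/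
theorem X_fibre (i : Idx) (t : S) (F : Finset S) (hF : ∀ s ∈ F, X i * s = t) : F.card ≤ 2 := by
  classical
  have hsub : F ⊆ {(⟨(X i).g⁻¹ • t.A, (X i).g⁻¹ * t.g⟩ : S),
      ⟨(X i).g⁻¹ • (t.A.erase 1), (X i).g⁻¹ * t.g⟩} := by
    intro s hs
    have h1 := hF s hs
    rw [mul_def] at h1
    have hA : (X i).A ∪ (X i).g • s.A = t.A := congrArg S.A h1
    have hg : (X i).g * s.g = t.g := congrArg S.g h1
    have hg2 : s.g = (X i).g⁻¹ * t.g := by rw [← hg, inv_mul_cancel_left]
    have hXA : (X i).A = ∅ ∨ (X i).A = {1} := by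
      cases i with
      | inl p => exact Or.inl rfl
      | inr j => exact Or.inr rfl
    have hB : (X i).g • s.A = t.A ∨ (X i).g • s.A = t.A.erase 1 := by
      rcases hXA with h2 | h2
      · left; rw [← hA, h2, Finset.empty_union]
      · by_cases h3 : (1 : F2) ∈ (X i).g • s.A
        · left
          rw [← hA, h2]
          exact (Finset.union_eq_right.2 (Finset.singleton_subset_iff.2 h3)).symm
        · right
          rw [← hA, h2]
          ext u
          rw [Finset.mem_erase, Finset.mem_union, Finset.mem_singleton]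
          constructor
          · intro hu
            exact ⟨fun h => h3 (h ▸ hu), Or.inr hu⟩
          · rintro ⟨h4, h5 | h5⟩
            · exact absurd h5 h4
            · exact h5
    rw [Finset.mem_insert, Finset.mem_singleton]
    rcases hB with hB | hB
    · left
      refine S.ext ?_ hg2
      show s.A = (X i).g⁻¹ • t.A
      rw [← hB, inv_smul_smul]
    · right
      refine S.ext ?_ hg2
      show s.A = (X i).g⁻¹ • (t.A.erase 1)
      rw [← hB, inv_smul_smul]
  exact (Finset.card_le_card hsub).trans Finset.card_le_two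

/-- `Cn n = {1, a, …, a^{n-1}}`. -/
def Cn (n : ℕ) : Finset F2 := (Finset.range n).image fun j => letter (false, true) ^ j

theorem letter_pow_injective : Function.Injective fun j : ℕ => letter (false, true) ^ j := by
  have h : letter (false, true) = FreeGroup.of false := rfl
  rw [h]
  intro i j hij
  have h2 := congrArg (FreeGroup.lift fun _ : Bool => Multiplicative.ofAdd (1 : ℤ)) hij
  simp only [map_pow, FreeGroup.lift_apply_of, ← ofAdd_nsmul] at h2
  have h3 := Multiplicative.ofAdd.injective h2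
  simpa using h3

theorem Cn_card (n : ℕ) : (Cn n).card = n := by
  rw [Cn, Finset.card_image_of_injective _ letter_pow_injective, Finset.card_range]

theorem x'_pow (n : ℕ) : x' ^ n = ⟨Cn n, letter (false, true) ^ n⟩ := by
  induction n with
  | zero => rfl
  | succ n ih =>
    rw [pow_succ, ih, mul_def, S.mk.injEq]
    constructor
    · show Cn n ∪ letter (false, true) ^ n • ({1} : Finset F2) = Cn (n + 1)
      rw [Finset.smul_finset_singleton, smul_eq_mul, mul_one, Cn, Cn, Finset.range_add_one,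
        Finset.image_insert]
      rw [Finset.union_comm]
      rfl
    · rfl

/-- The elements `s` with `x'^n * s = (Cn n, a^n)` that we use: `(B, 1)` with `a^n B ⊆ Cn n`. -/
def Fn (n : ℕ) : Finset S :=
  ((letter (false, true) ^ n)⁻¹ • Cn n).powerset.map
    ⟨fun B => (⟨B, 1⟩ : S), fun _ _ h => congrArg S.A h⟩

theorem Fn_card (n : ℕ) : (Fn n).card = 2 ^ n := by
  rw [Fn, Finset.card_map, Finset.card_powerset, Finset.card_smul_finset, Cn_card]

theorem Fn_spec (n : ℕ) : ∀ s ∈ Fn n, x' ^ n * s = ⟨Cn n, letter (false, true) ^ n⟩ := by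
  intro s hs
  rw [Fn, Finset.mem_map] at hs
  obtain ⟨B, hB, rfl⟩ := hs
  rw [Finset.mem_powerset] at hB
  rw [x'_pow, mul_def, S.mk.injEq]
  constructor
  · show Cn n ∪ letter (false, true) ^ n • B = Cn n
    have h1 := Finset.smul_finset_subset_smul_finset (a := letter (false, true) ^ n) hB
    rw [smul_inv_smul] at h1
    exact Finset.union_eq_left.2 h1
  · exact mul_one _

/-- There are a monoid `S` and a finite generating family `X` of `S` such that `S` is left
reversible, satisfies the Klawe condition and is not left amenable, and such that the left random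
walk Markov operator of `X` is defined, it is bounded on `ℓ²(S)`, its spectral radius
`lim ‖M^n‖^{1/n}` (the limit exists) is greater than `1`, and its norm is greater than `1`. -/
theorem result :
    ∃ (S : Type) (_ : Monoid S) (ι : Type) (_ : Fintype ι) (X : ι → S),
      Submonoid.closure (Set.range X) = ⊤ ∧ LeftReversible S ∧ Klawe S ∧ ¬ LeftAmenable S ∧
      Defined X ∧ IsBdd (markov X) ∧ (∃ r : ℝ, 1 < r ∧ HasSpectralRadius X r) ∧
      1 < opNorm (markov X) := by
  have hM := markov_exists X 2 X_fibre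
  refine ⟨S, inferInstance, Idx, inferInstance, X, X_generates, S_reversible, S_klawe,
    S_not_amenable, defined_of X _ hM, isBdd_of X _ hM, ?_⟩
  set A := avg X 2 X_fibre with hA
  let J : Finset Idx := Finset.univ.map ⟨Sum.inr, Sum.inr_injective⟩
  have hJ : ∀ i ∈ J, X i = x' := by
    intro i hi
    obtain ⟨j, _, rfl⟩ := Finset.mem_map.1 hi
    rfl
  have hJc : (J.card : ℝ) / Fintype.card Idx = 3 / 4 := by
    have h1 : J.card = 12 := by rw [Finset.card_map, Finset.card_univ, Fintype.card_fin]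
    have h2 : Fintype.card Idx = 16 := by decide
    rw [h1, h2]; norm_num
  have hpow : ∀ n, (Real.sqrt 2 * (3 / 4)) ^ n ≤ ‖(ContinuousLinearMap.adjoint A) ^ n‖ := by
    intro n
    have h1 := norm_pow_lower X 2 X_fibre x' J hJ n _ (Fn n) (Fn_spec n)
    rw [Fn_card, hJc] at h1
    have h2 : Real.sqrt ((2 ^ n : ℕ) : ℝ) = Real.sqrt 2 ^ n := by
      push_cast
      rw [Real.sqrt_eq_iff_mul_self_eq (by positivity) (by positivity), ← mul_pow,
        Real.mul_self_sqrt (by norm_num)]
    rw [h2, ← mul_pow] at h1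
    rw [← ContinuousLinearMap.star_eq_adjoint, ← star_pow, ContinuousLinearMap.star_eq_adjoint,
      LinearIsometryEquiv.norm_map]
    exact h1
  have hq : 1 < Real.sqrt 2 * (3 / 4) := by
    have h1 : (4 / 3 : ℝ) < Real.sqrt 2 := by
      rw [Real.lt_sqrt (by norm_num)]; norm_num
    linarith
  obtain ⟨r, hr, hT⟩ := spectralRadius_exists (ContinuousLinearMap.adjoint A) _
    (by linarith) hpow
  refine ⟨⟨r, lt_of_lt_of_le hq hr, ?_⟩, ?_⟩
  · unfold HasSpectralRadius
    unfold HasRadius at hT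
    simp only [opNorm_iter X _ hM]
    exact hT
  · have h1 := hpow 1
    have h2 := opNorm_iter X _ hM 1
    rw [Function.iterate_one] at h2
    rw [h2]
    rw [pow_one] at h1
    linarith

end Pool.Agent.Results.MP_122225_al.NotAmenable
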